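import Pool.Agent.K3h48.FG.Final

/-!
# Multinorm obstruction at places: extensions of degree prime to `ℓ`
-/

set_option autoImplicit false
set_option linter.unusedSectionVars false

namespace Pool.Agent.K3h48.FG

open Polynomial IntermediateField Pool.Agent.W620.SC
open Pool.Agent.K3h48.MN (ind kn kn_mul ssum ssum_mul ssum_pow Gn kap kap_apply exists_exp' pq_ne Good GenBy cs wt
  root_orbit move_iff roots_eq fix_all exists_moved IsFactor irr_ext mapS mapS_card mapS_prod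
  exists_prim exists_g minpoly_transfer Obs)

universe u v w z

section ext

variable {ℓ p q : ℕ} [hℓ : Fact ℓ.Prime] [hp : Fact p.Prime] [hq : Fact q.Prime]
  {χ : (ZMod p)ˣ →* Multiplicative (ZMod ℓ)} {ψ : (ZMod q)ˣ →* Multiplicative (ZMod ℓ)}

lemma obs_pow {κ : Type*} [Field κ] [NumberField κ] {b : κ} (hb : Obs χ ψ b) {d : ℕ}
    (hd : ¬ ℓ ∣ d) : Obs χ ψ (b ^ d) := by
  have hb0 := hb.ne_zero
  obtain ⟨m, hm, h⟩ := hb
  refine ⟨m, hm, ?_⟩
  rw [map_pow, ssum_pow _ (Algebra.norm_ne_zero_iff.2 hb0)]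
  refine mul_ne_zero ?_ h
  rwa [Ne, ZMod.natCast_eq_zero_iff]

variable {K : Type u} [Field K] [CharZero K] {V : ValuationSubring K} {κ : Type z} [Field κ]
  [NumberField κ] {r : V →+* κ}

/-- the obstruction over an extension of degree prime to `ℓ` -/
theorem ext_not (hG : Good χ ψ) (hr : IsPlace V r) {b : V} (hb : Obs χ ψ (r b))
    {L : Type v} [Field L] [CharZero L] [Algebra K L] [FiniteDimensional K L]
    (hL : ¬ ℓ ∣ Module.finrank K L) {A : Type w} [Field A] [CharZero A] [IsAlgClosed A]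
    [Algebra L A] [Algebra.IsAlgebraic L A] {ζ : A} (hζ : IsPrimitiveRoot ζ (p * q))
    {e : Option (ZMod ℓ) → ℚ[X]} (he : ∀ i, Gn χ ψ (cs i).1 (cs i).2 ζ (e i)) :
    (∀ i, (minpoly ℚ (aeval ζ (e i) : A)).natDegree = ℓ) ∧
    ¬ ∃ (c : ∀ i, L⟮(aeval ζ (e i) : A)⟯) (ρ : L),
      algebraMap K L b = ρ ^ ℓ * ∏ i, Algebra.norm L (c i) := by
  let _ : Algebra K A := ((algebraMap L A).comp (algebraMap K L)).toAlgebra
  have hst : IsScalarTower K L A := IsScalarTower.of_algebraMap_eq fun _ => rfl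
  have halg : Algebra.IsAlgebraic K A := Algebra.IsAlgebraic.trans K L A
  have hb' : Obs χ ψ (r (b ^ Module.finrank K L)) := by
    rw [map_pow]
    exact obs_pow hb hL
  obtain ⟨h1, h2⟩ := place_main (K := K) hG hζ he hr hb'
  refine ⟨h1, ?_⟩
  rintro ⟨c, ρ, h⟩
  have h3 := fun i => tower' (K := K) (L := L)
    (Algebra.IsIntegral.isIntegral (R := K) (aeval ζ (e i) : A)) (c i)
  choose c' hc' using h3
  apply h2
  refine ⟨c', Algebra.norm K ρ, ?_⟩
  have h4 := congrArg (Algebra.norm K) h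
  rw [Algebra.norm_algebraMap, map_mul, map_pow, map_prod,
    Finset.prod_congr rfl fun i _ => hc' i] at h4
  rw [← h4]
  simp

variable {θ : Option (ZMod ℓ) → CyclotomicField (p * q) ℚ}
variable {L : Type v} [Field L] [CharZero L] [Algebra K L] [FiniteDimensional K L]

/-- all data in an algebraic closure -/
theorem setup (hG : Good χ ψ) (hθ : ∀ i, GenBy χ ψ (cs i).1 (cs i).2 (θ i)) (hr : IsPlace V r)
    {b : V} (hb : Obs χ ψ (r b)) (hL : ¬ ℓ ∣ Module.finrank K L) {A : Type w} [Field A]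
    [CharZero A] [IsAlgClosed A] [Algebra L A] [Algebra.IsAlgebraic L A]
    (G : Option (ZMod ℓ) → Finset L[X]) (hGf : ∀ i, ∀ g ∈ G i, IsFactor (minpoly ℚ (θ i)) g) :
    ∃ (ζ : A) (hζ : IsPrimitiveRoot ζ (p * q)) (e : Option (ZMod ℓ) → ℚ[X]),
      (∀ i, Gn χ ψ (cs i).1 (cs i).2 ζ (e i)) ∧
      (∀ i : Option (ZMod ℓ), ∃ σ : A ≃ₐ[L] A, kap χ ψ (cs i).1 (cs i).2 hζ σ ≠ 1) ∧
      (∀ i, ∀ g ∈ G i, ∃ h, Adm (aeval ζ (e i) : A) g h) ∧
      (∀ i, (minpoly ℚ (θ i)).map (algebraMap ℚ L) = minpoly L (aeval ζ (e i) : A)) ∧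
      ¬ ∃ (c : ∀ i, L⟮(aeval ζ (e i) : A)⟯) (ρ : L),
        algebraMap K L b = ρ ^ ℓ * ∏ i, Algebra.norm L (c i) := by
  obtain ⟨ζ₀, hζ₀⟩ : ∃ ζ : CyclotomicField (p * q) ℚ, IsPrimitiveRoot ζ (p * q) :=
    ⟨_, IsCyclotomicExtension.zeta_spec (p * q) ℚ _⟩
  have hpos : 0 < p * q := Nat.pos_of_ne_zero pq_ne
  obtain ⟨ζ, hζ⟩ := exists_prim A hpos
  have h1 := fun i => exists_g (hθ i) hζ₀
  choose e he1 he2 using h1
  have he : ∀ i, Gn χ ψ (cs i).1 (cs i).2 ζ (e i) := fun i => (he2 i).transfer hζ₀ hζ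
  obtain ⟨hdeg, hnot⟩ := ext_not hG hr hb hL hζ he
  have hmove := exists_move' hζ he _ hnot
  have hpoly : ∀ i, (minpoly ℚ (θ i)).map (algebraMap ℚ L) = minpoly L (aeval ζ (e i) : A) := by
    intro i
    rw [← minpoly_map' hζ (he i) (hmove i) (hdeg i), ← minpoly_transfer hpos hζ₀ hζ (e i),
      ← he1 i]
  refine ⟨ζ, hζ, e, he, hmove, ?_, hpoly, hnot⟩
  intro i g hg
  have h2 := hGf i g hg
  obtain ⟨h, hh⟩ := h2.dvd
  refine ⟨h, h2.monic, h2.irreducible, h2.not_linear, ?_⟩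
  rw [← hpoly i]
  exact hh

theorem final_no_section (hG : Good χ ψ) (hθ : ∀ i, GenBy χ ψ (cs i).1 (cs i).2 (θ i))
    (hr : IsPlace V r) {b : V} (hb : Obs χ ψ (r b)) (hL : ¬ ℓ ∣ Module.finrank K L)
    {F : Type*} {Ω : Type w} [Field F] [Field Ω]
    [Algebra L F] [Algebra F Ω] [Algebra L Ω] [IsScalarTower L F Ω] [IsAlgClosed Ω]
    [Algebra.IsAlgebraic F Ω] (G : Option (ZMod ℓ) → Finset L[X])
    (hGf : ∀ i, ∀ g ∈ G i, IsFactor (minpoly ℚ (θ i)) g) {n : ℕ} (hn : ℓ ∣ n) (x y : F)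
    (hy : y ≠ 0) (hxy : algebraMap L F (algebraMap K L b) * y ^ n =
      aeval x (∏ i, ∏ g ∈ G i, g))
    (U : Set (ValuationSubring F)) (hU : ∀ O ∈ U, ∀ c : L, algebraMap L F c ∈ O)
    (hinf : (∀ i, ℓ ∣ (G i).card) ∨ ∀ O ∈ U, x ∈ O) : IsEmpty (GSection L F Ω U) := by
  have hac : IsAlgClosure L (algebraicClosure L Ω) := inferInstance
  have hA : IsAlgClosed (algebraicClosure L Ω) := hac.1
  have hc : CharZero (algebraicClosure L Ω) :=
    charZero_of_injective_algebraMap (algebraMap L (algebraicClosure L Ω)).injective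
  obtain ⟨ζ, hζ, e, he, hmove, hadm, -, hnot⟩ := setup (A := algebraicClosure L Ω) hG hθ hr hb hL
    G hGf
  obtain ⟨n', rfl⟩ := hn
  have hb0 : (b : K) ≠ 0 := by
    intro h0
    have h1 : b = 0 := Subtype.ext h0
    have h2 := hb.ne_zero
    rw [h1, map_zero] at h2
    exact h2 rfl
  refine gen_no_section hζ he hmove G hadm (algebraMap K L b) ((_root_.map_ne_zero _).2 hb0) x
    (y ^ n') (pow_ne_zero _ hy) ?_ U hU hinf hnot
  rw [← pow_mul, mul_comm n' ℓ, hxy, map_prod]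
  exact Finset.prod_congr rfl fun i _ => map_prod _ _ _

theorem final_no_points (hG : Good χ ψ) (hθ : ∀ i, GenBy χ ψ (cs i).1 (cs i).2 (θ i))
    (hr : IsPlace V r) {b : V} (hb : Obs χ ψ (r b)) (hL : ¬ ℓ ∣ Module.finrank K L)
    (G : Option (ZMod ℓ) → Finset L[X])
    (hGf : ∀ i, ∀ g ∈ G i, IsFactor (minpoly ℚ (θ i)) g) {n : ℕ} (hn : ℓ ∣ n) (x y : L) :
    algebraMap K L b * y ^ n ≠ eval x (∏ i, ∏ g ∈ G i, g) := by
  obtain ⟨ζ, hζ, e, he, hmove, hadm, -, hnot⟩ := setup (A := AlgebraicClosure L) hG hθ hr hb hL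
    G hGf
  obtain ⟨n', rfl⟩ := hn
  intro h
  refine gen_no_points hζ he hmove G hadm _ hnot x (y ^ n') ?_
  rw [← pow_mul, mul_comm n' ℓ, h, eval_prod]
  exact Finset.prod_congr rfl fun i _ => eval_prod _ _ _

theorem final_no_infinity (hG : Good χ ψ) (hθ : ∀ i, GenBy χ ψ (cs i).1 (cs i).2 (θ i))
    (hr : IsPlace V r) {b : V} (hb : Obs χ ψ (r b)) (hL : ¬ ℓ ∣ Module.finrank K L) (ρ : L) :
    ρ ^ ℓ ≠ algebraMap K L b := by
  obtain ⟨ζ, hζ, e, he, hmove, hadm, -, hnot⟩ := setup (A := AlgebraicClosure L) hG hθ hr hb hL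
    (fun _ => ∅) (fun i g hg => absurd hg (Finset.notMem_empty g))
  intro h
  apply hnot
  refine ⟨fun _ => 1, ρ, ?_⟩
  simp only [map_one, Finset.prod_const_one, mul_one]
  exact h.symm

theorem final_separable (hG : Good χ ψ) (hθ : ∀ i, GenBy χ ψ (cs i).1 (cs i).2 (θ i))
    (hr : IsPlace V r) {b : V} (hb : Obs χ ψ (r b))
    (G : Option (ZMod ℓ) → Finset K[X])
    (hGf : ∀ i, ∀ g ∈ G i, IsFactor (minpoly ℚ (θ i)) g) :
    (∏ i, ∏ g ∈ G i, g).Separable ∧ (∏ i, ∏ g ∈ G i, g).natDegree = ℓ * ∑ i, (G i).card := by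
  obtain ⟨ζ, hζ, e, he, hmove, hadm, -, hnot⟩ := setup (L := K) (A := AlgebraicClosure K) hG hθ
    hr hb (by rw [Module.finrank_self]; exact hℓ.out.one_lt.ne' ∘ Nat.dvd_one.1) G hGf
  exact ⟨gen_separable hζ he hmove G hadm, gen_natDegree hζ he hmove G hadm⟩

theorem factor_degree (hG : Good χ ψ) (hθ : ∀ i, GenBy χ ψ (cs i).1 (cs i).2 (θ i))
    (hr : IsPlace V r) {b : V} (hb : Obs χ ψ (r b)) {i : Option (ZMod ℓ)}
    {g : K[X]} (hg : IsFactor (minpoly ℚ (θ i)) g) : g.natDegree = ℓ := by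
  classical
  have h1 := final_separable hG hθ hr hb (fun j => if j = i then {g} else ∅) (by
    intro j g' hg'
    by_cases hj : j = i
    · subst hj
      rw [if_pos rfl, Finset.mem_singleton] at hg'
      rw [hg']
      exact hg
    · rw [if_neg hj] at hg'
      exact absurd hg' (Finset.notMem_empty _))
  have h2 := h1.2
  have h3 : ∀ j : Option (ZMod ℓ), (∏ g' ∈ (if j = i then {g} else ∅ : Finset K[X]), g') =
      if j = i then g else 1 := by
    intro j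
    split_ifs <;> simp
  have h4 : ∀ j : Option (ZMod ℓ), (if j = i then {g} else ∅ : Finset K[X]).card =
      if j = i then 1 else 0 := by
    intro j
    split_ifs <;> simp
  rw [Finset.prod_congr rfl fun j _ => h3 j, Finset.sum_congr rfl fun j _ => h4 j,
    Finset.prod_ite_eq' , Finset.sum_ite_eq', if_pos (Finset.mem_univ i),
    if_pos (Finset.mem_univ i), mul_one] at h2
  exact h2

/-- the factors over an extension of degree prime to `ℓ` -/
lemma mapS_factor (hG : Good χ ψ) (hθ : ∀ i, GenBy χ ψ (cs i).1 (cs i).2 (θ i))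
    (hr : IsPlace V r) {b : V} (hb : Obs χ ψ (r b)) (hL : ¬ ℓ ∣ Module.finrank K L)
    (G : Option (ZMod ℓ) → Finset K[X])
    (hGf : ∀ i, ∀ g ∈ G i, IsFactor (minpoly ℚ (θ i)) g) :
    ∀ i, ∀ g ∈ mapS L G i, IsFactor (minpoly ℚ (θ i)) g := by
  classical
  intro i g hg
  unfold mapS at hg
  obtain ⟨g₀, hg₀, rfl⟩ := Finset.mem_map.1 hg
  have h := hGf i g₀ hg₀
  exact Pool.Agent.K3h48.MN.IsFactor.map h
    (irr_ext hℓ.out hL h.monic h.irreducible (factor_degree hG hθ hr hb h))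

/-- no sections over the extension -/
theorem ext_no_section (hG : Good χ ψ) (hθ : ∀ i, GenBy χ ψ (cs i).1 (cs i).2 (θ i))
    (hr : IsPlace V r) {b : V} (hb : Obs χ ψ (r b)) (hL : ¬ ℓ ∣ Module.finrank K L)
    (G : Option (ZMod ℓ) → Finset K[X])
    (hGf : ∀ i, ∀ g ∈ G i, IsFactor (minpoly ℚ (θ i)) g) {n : ℕ} (hn : ℓ ∣ n)
    {F : Type*} {Ω : Type w} [Field F]
    [Field Ω] [Algebra L F] [Algebra F Ω] [Algebra L Ω] [IsScalarTower L F Ω] [IsAlgClosed Ω]
    [Algebra.IsAlgebraic F Ω] (x y : F) (hy : y ≠ 0)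
    (hxy : algebraMap L F (algebraMap K L b) * y ^ n =
      aeval x ((∏ i, ∏ g ∈ G i, g).map (algebraMap K L)))
    (U : Set (ValuationSubring F)) (hU : ∀ O ∈ U, ∀ c : L, algebraMap L F c ∈ O)
    (hinf : (∀ i, ℓ ∣ (G i).card) ∨ ∀ O ∈ U, x ∈ O) : IsEmpty (GSection L F Ω U) := by
  refine final_no_section hG hθ hr hb hL (mapS L G) (mapS_factor hG hθ hr hb hL G hGf) hn x y hy
    ?_ U hU ?_
  · rw [mapS_prod]
    exact hxy
  · rcases hinf with h1 | h1
    · left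
      intro i
      rw [mapS_card]
      exact h1 i
    · exact Or.inr h1

theorem ext_no_points (hG : Good χ ψ) (hθ : ∀ i, GenBy χ ψ (cs i).1 (cs i).2 (θ i))
    (hr : IsPlace V r) {b : V} (hb : Obs χ ψ (r b)) (hL : ¬ ℓ ∣ Module.finrank K L)
    (G : Option (ZMod ℓ) → Finset K[X])
    (hGf : ∀ i, ∀ g ∈ G i, IsFactor (minpoly ℚ (θ i)) g) {n : ℕ} (hn : ℓ ∣ n)
    (x y : L) : algebraMap K L b * y ^ n ≠ eval x ((∏ i, ∏ g ∈ G i, g).map (algebraMap K L)) := by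
  rw [← mapS_prod]
  exact final_no_points hG hθ hr hb hL (mapS L G) (mapS_factor hG hθ hr hb hL G hGf) hn x y

/-- the translates of the polynomials are factors -/
theorem translate (hG : Good χ ψ) (hθ : ∀ i, GenBy χ ψ (cs i).1 (cs i).2 (θ i))
    (hr : IsPlace V r) {b : V} (hb : Obs χ ψ (r b)) (i : Option (ZMod ℓ)) (j : K) :
    IsFactor (minpoly ℚ (θ i)) (((minpoly ℚ (θ i)).map (algebraMap ℚ K)).comp (X - C j)) := by
  obtain ⟨ζ, hζ, e, he, hmove, -, hpoly, hnot⟩ := setup (L := K) (A := AlgebraicClosure K) hG hθ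
    hr hb (by rw [Module.finrank_self]; exact hℓ.out.one_lt.ne' ∘ Nat.dvd_one.1)
    (fun _ => ∅) (fun i g hg => absurd hg (Finset.notMem_empty g))
  have hint : IsIntegral K (aeval ζ (e i) : AlgebraicClosure K) := Algebra.IsIntegral.isIntegral _
  obtain ⟨σ, hσ⟩ := hmove i
  have hdeg : (minpoly K (aeval ζ (e i) : AlgebraicClosure K)).natDegree = ℓ :=
    roots_eq ((he i).fix_iff hζ) hσ
  have h3 : ∀ Q : K[X], Q.comp (X - C j) = (algEquivAevalXAddC (-j)).toRingEquiv Q := by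
    intro Q
    change _ = aeval (X + C (-j)) Q
    rw [← Polynomial.comp_eq_aeval, C_neg, ← sub_eq_add_neg]
  rw [hpoly i]
  refine ⟨(minpoly.monic hint).comp_X_sub_C j, ?_, ?_, ?_⟩
  · rw [h3]
    exact (MulEquiv.irreducible_iff (algEquivAevalXAddC (-j)).toRingEquiv).2
      (minpoly.irreducible hint)
  · rw [natDegree_comp, natDegree_X_sub_C, mul_one, hdeg]
    exact hℓ.out.one_lt.ne'
  · refine ⟨AdjoinRoot.root _ + algebraMap K _ j, ?_⟩
    rw [aeval_comp, map_sub, aeval_X, aeval_C, add_sub_cancel_right, AdjoinRoot.aeval_eq,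
      AdjoinRoot.mk_eq_zero, hpoly i]

end ext

end Pool.Agent.K3h48.FG
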