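import Pool.Agent.K3h48.MN.Ext
import Pool.Agent.K3h48.BM.Fact

/-!
# Norms and places
-/

set_option autoImplicit false
set_option linter.unusedSectionVars false

namespace Pool.Agent.K3h48.FG

open Polynomial IntermediateField

section dets

variable {R S : Type*} [CommRing R] [CommRing S] {n : Type*} [Fintype n] [DecidableEq n]

lemma det_map (ι : R →+* S) (M : Matrix n n R) (h : R[X]) :
    ι (aeval M h).det = (aeval (M.map ι) (h.map ι)).det := by
  have h1 : ι.mapMatrix (aeval M h) = aeval (M.map ι) (h.map ι) := by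
    induction h using Polynomial.induction_on' with
    | add a b ha hb => rw [map_add, map_add, ha, hb, Polynomial.map_add, map_add]
    | monomial m a =>
      rw [aeval_monomial, Polynomial.map_monomial, aeval_monomial, map_mul, map_pow,
        RingHom.mapMatrix_apply, RingHom.mapMatrix_apply, Matrix.algebraMap_eq_diagonal,
        Matrix.algebraMap_eq_diagonal]
      congr 1
      ext i j
      rw [Matrix.map_apply, Matrix.diagonal_apply, Matrix.diagonal_apply]
      split_ifs
      · rfl
      · exact map_zero _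
  rw [RingHom.map_det, h1]

end dets

section norm

variable {K A : Type*} [Field K] [Field A] [Algebra K A]

/-- matrices with the same characteristic polynomial -/
lemma det_eq {n m : Type*} [Fintype n] [DecidableEq n] [Fintype m] [DecidableEq m]
    (M : Matrix n n K) (N : Matrix m m K) (h : M.charpoly = N.charpoly) (D : K[X]) :
    (aeval M D).det = (aeval N D).det := by
  let L := AlgebraicClosure K
  apply (algebraMap K L).injective
  rw [det_map, det_map, Pool.Agent.K3h48.BM.det_aeval _ (IsAlgClosed.splits _) _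
    (IsAlgClosed.splits _), Pool.Agent.K3h48.BM.det_aeval _ (IsAlgClosed.splits _) _
    (IsAlgClosed.splits _), Matrix.charpoly_map, Matrix.charpoly_map, h]

/-- norms as determinants -/
lemma norm_eq_det {n : Type*} [Fintype n] [DecidableEq n] {θ : A} (hθ : IsIntegral K θ)
    (M : Matrix n n K) (h : M.charpoly = minpoly K θ) (D : K[X]) :
    Algebra.norm K (aeval (AdjoinSimple.gen K θ) D) = (aeval M D).det := by
  have h1 := Algebra.norm_eq_matrix_det (adjoin.powerBasis hθ).basis
    (aeval (adjoin.powerBasis hθ).gen D)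
  rw [adjoin.powerBasis_gen] at h1
  rw [h1, ← aeval_algHom_apply]
  apply det_eq
  rw [h]
  have h2 := charpoly_leftMulMatrix (adjoin.powerBasis hθ)
  rw [adjoin.powerBasis_gen, minpoly_gen] at h2
  exact h2

/-- norms in towers -/
lemma tower' {L : Type*} [Field L] [Algebra K L] [Algebra L A] [IsScalarTower K L A]
    [FiniteDimensional K L] {θ : A} (hθ : IsIntegral K θ)
    (c : L⟮θ⟯) : ∃ c' : K⟮θ⟯, Algebra.norm K (Algebra.norm L c) = Algebra.norm K c' := by
  have hθL : IsIntegral L θ := hθ.tower_top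
  have hfd : FiniteDimensional L L⟮θ⟯ := adjoin.finiteDimensional hθL
  have hfd0 : FiniteDimensional K K⟮θ⟯ := adjoin.finiteDimensional hθ
  have hst0 : IsScalarTower K L L⟮θ⟯ := inferInstance
  have hfd2 : FiniteDimensional K L⟮θ⟯ := FiniteDimensional.trans K L L⟮θ⟯
  have hle : ∀ x : A, x ∈ K⟮θ⟯ → x ∈ L⟮θ⟯ := by
    intro x hx
    have h1 : K⟮θ⟯ ≤ (L⟮θ⟯).restrictScalars K := by
      rw [IntermediateField.adjoin_simple_le_iff]
      exact mem_adjoin_simple_self L θ
    exact h1 hx
  let ι : K⟮θ⟯ →+* L⟮θ⟯ :=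
    { toFun := fun x => ⟨x, hle x x.2⟩
      map_one' := rfl
      map_mul' := fun _ _ => rfl
      map_zero' := rfl
      map_add' := fun _ _ => rfl }
  let _ : Algebra K⟮θ⟯ L⟮θ⟯ := ι.toAlgebra
  have hst : IsScalarTower K K⟮θ⟯ L⟮θ⟯ := IsScalarTower.of_algebraMap_eq fun x => by
    apply Subtype.ext
    rw [IsScalarTower.algebraMap_apply K L L⟮θ⟯ x]
    change algebraMap L A (algebraMap K L x) = algebraMap K A x
    rw [← IsScalarTower.algebraMap_apply K L A]
  have hfd3 : FiniteDimensional K⟮θ⟯ L⟮θ⟯ := Module.Finite.of_restrictScalars_finite K _ _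
  have hfree : Module.Free K⟮θ⟯ L⟮θ⟯ := Module.Free.of_divisionRing _ _
  have hfree2 : Module.Free K K⟮θ⟯ := Module.Free.of_divisionRing _ _
  have hfree3 : Module.Free L L⟮θ⟯ := Module.Free.of_divisionRing _ _
  have hfree4 : Module.Free K L := Module.Free.of_divisionRing _ _
  refine ⟨Algebra.norm K⟮θ⟯ c, ?_⟩
  rw [Algebra.norm_norm, Algebra.norm_norm]

end norm

section place

variable {K : Type*} [Field K] [CharZero K] (V : ValuationSubring K) {κ : Type*} [Field κ]
  [CharZero κ] (r : V →+* κ)

/-- the kernel of the homomorphism is the maximal ideal -/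
def IsPlace : Prop := ∀ x : V, r x ≠ 0 → (x : K)⁻¹ ∈ V

variable {V r}

lemma rat_mem (hr : IsPlace V r) (x : ℚ) : (x : K) ∈ V := by
  have h1 : ((x.num : ℤ) : K) ∈ V := by
    simp
  have h2 : (((x.den : ℕ) : K))⁻¹ ∈ V := by
    have h3 := hr ((x.den : ℕ) : V) (by
      rw [map_natCast]
      exact_mod_cast x.den_nz)
    simpa using h3
  have h3 : (x : K) = (x.num : K) * ((x.den : ℕ) : K)⁻¹ := by
    rw [← div_eq_mul_inv]
    exact Rat.cast_def x
  rw [h3]
  exact mul_mem h1 h2

/-- the rational numbers in the valuation ring -/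
def ratV (hr : IsPlace V r) : ℚ →+* V where
  toFun x := ⟨(x : K), rat_mem hr x⟩
  map_one' := Subtype.ext (by simp)
  map_mul' x y := Subtype.ext (by simp)
  map_zero' := Subtype.ext (by simp)
  map_add' x y := Subtype.ext (by simp)

omit [CharZero K] [CharZero κ] in
/-- every nonzero polynomial is a multiple of a polynomial over the valuation ring with a
coefficient `1` -/
lemma scale (V : ValuationSubring K) {D : K[X]} (hD : D ≠ 0) :
    ∃ (π : K) (D₀ : V[X]) (j : ℕ), π ≠ 0 ∧ D = C π * D₀.map (V.subtype) ∧ D₀.coeff j = 1 ∧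
      D₀.natDegree ≤ D.natDegree := by
  classical
  obtain ⟨j, hj, hmax⟩ := Finset.exists_max_image D.support (fun i => V.valuation (D.coeff i))
    (by rwa [Finset.nonempty_iff_ne_empty, Ne, support_eq_empty])
  have hπ : D.coeff j ≠ 0 := mem_support_iff.1 hj
  have hmem : ∀ i, D.coeff i / D.coeff j ∈ V := by
    intro i
    by_cases hi : D.coeff i = 0
    · rw [hi, zero_div]
      exact zero_mem _
    · rw [← V.valuation_le_one_iff, map_div₀]
      exact div_le_one_of_le₀ (hmax i (mem_support_iff.2 hi)) zero_le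
  have hcoeff : ∀ i, (∑ i ∈ Finset.range (D.natDegree + 1),
      C (⟨D.coeff i / D.coeff j, hmem i⟩ : V) * X ^ i).coeff i =
        if i < D.natDegree + 1 then (⟨D.coeff i / D.coeff j, hmem i⟩ : V) else 0 := by
    intro i
    rw [finsetSum_coeff]
    simp only [coeff_C_mul, coeff_X_pow, mul_ite, mul_one, mul_zero]
    rw [Finset.sum_ite_eq]
    simp only [Finset.mem_range]
  refine ⟨D.coeff j, ∑ i ∈ Finset.range (D.natDegree + 1),
    C (⟨D.coeff i / D.coeff j, hmem i⟩ : V) * X ^ i, j, hπ, ?_, ?_, ?_⟩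
  · rw [Polynomial.map_sum, Finset.mul_sum]
    conv_lhs => rw [D.as_sum_range_C_mul_X_pow]
    refine Finset.sum_congr rfl fun i _ => ?_
    rw [Polynomial.map_mul, Polynomial.map_C, Polynomial.map_pow, Polynomial.map_X, ← mul_assoc,
      ← C_mul]
    congr 2
    change D.coeff i = D.coeff j * (D.coeff i / D.coeff j)
    field_simp
  · rw [hcoeff, if_pos]
    · apply Subtype.ext
      change D.coeff j / D.coeff j = 1
      exact div_self hπ
    · exact Nat.lt_succ_of_le (le_natDegree_of_mem_supp j hj)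
  · refine natDegree_sum_le_of_forall_le _ _ fun i hi => ?_
    exact (natDegree_C_mul_X_pow_le _ _).trans (Nat.lt_succ_iff.1 (Finset.mem_range.1 hi))

/-- an element of the valuation ring with a power in the units -/
lemma mem_of_pow {x : K} {n : ℕ} (hn : n ≠ 0) (h : x ^ n ∈ V) : x ∈ V := by
  rw [← V.valuation_le_one_iff, map_pow] at h
  rw [← V.valuation_le_one_iff]
  exact (pow_le_one_iff hn).1 h

variable {A B : Type*} [Field A] [Algebra K A] [Field B] [Algebra κ B]

/-- norms from a field which stays a field at the place -/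
theorem place_norm (hr : IsPlace V r) {n : ℕ} (M : Matrix (Fin n) (Fin n) ℚ)
    {θ : A} (hθ : IsIntegral K θ) (h1 : M.charpoly.map (algebraMap ℚ K) = minpoly K θ)
    {θ' : B} (hθ' : IsIntegral κ θ') (h2 : M.charpoly.map (algebraMap ℚ κ) = minpoly κ θ')
    (c : K⟮θ⟯) (hc : c ≠ 0) : ∃ (π : K) (u : V) (c' : κ⟮θ'⟯), π ≠ 0 ∧
      Algebra.norm K c = π ^ n * u ∧ r u = Algebra.norm κ c' ∧ r u ≠ 0 := by
  have hdim : (minpoly K θ).natDegree = n := by
    rw [← h1, natDegree_map, Matrix.charpoly_natDegree_eq_dim, Fintype.card_fin]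
  have hdim' : (minpoly κ θ').natDegree = n := by
    rw [← h2, natDegree_map, Matrix.charpoly_natDegree_eq_dim, Fintype.card_fin]
  obtain ⟨D, hDd, hD⟩ := (adjoin.powerBasis hθ).exists_eq_aeval c
  rw [adjoin.powerBasis_dim, hdim] at hDd
  rw [adjoin.powerBasis_gen] at hD
  have hD0 : D ≠ 0 := by
    rintro rfl
    rw [map_zero] at hD
    exact hc hD
  obtain ⟨π, D₀, j, hπ, hDπ, hj, hdeg⟩ := scale V hD0
  -- the determinant over the valuation ring
  set MV : Matrix (Fin n) (Fin n) V := M.map (ratV hr) with hMV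
  have e1 : MV.map V.subtype = M.map (algebraMap ℚ K) := by
    ext i j
    exact (eq_ratCast (algebraMap ℚ K) (M i j)).symm
  have e2 : MV.map r = M.map (algebraMap ℚ κ) := by
    ext i j
    change (r.comp (ratV hr)) (M i j) = algebraMap ℚ κ (M i j)
    exact RingHom.congr_fun (RingHom.ext_rat _ _) _
  refine ⟨π, (aeval MV D₀).det, aeval (AdjoinSimple.gen κ θ') (D₀.map r), hπ, ?_, ?_, ?_⟩
  · rw [hD, norm_eq_det hθ (M.map (algebraMap ℚ K)) (by rw [Matrix.charpoly_map, h1]), hDπ,
      map_mul, Matrix.det_mul, aeval_C, Matrix.algebraMap_eq_diagonal, Matrix.det_diagonal]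
    have h4 : ∀ i : Fin n, (algebraMap K (Fin n → K)) π i = π := fun _ => rfl
    rw [Finset.prod_congr rfl fun i _ => h4 i, Finset.prod_const, Finset.card_univ,
      Fintype.card_fin]
    congr 1
    have h3 := det_map V.subtype MV D₀
    rw [e1] at h3
    exact h3.symm
  · rw [norm_eq_det hθ' (M.map (algebraMap ℚ κ)) (by rw [Matrix.charpoly_map, h2]), det_map, e2]
  · rw [det_map, e2, ← norm_eq_det hθ' (M.map (algebraMap ℚ κ)) (by rw [Matrix.charpoly_map, h2])]
    have hfd : FiniteDimensional κ κ⟮θ'⟯ := adjoin.finiteDimensional hθ'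
    rw [Ne, Algebra.norm_eq_zero_iff]
    intro h0
    have hne : D₀.map r ≠ 0 := by
      intro h
      have := congrArg (fun Q : κ[X] => Q.coeff j) h
      simp only [coeff_map, hj, map_one, coeff_zero] at this
      exact one_ne_zero this
    have h3 := natDegree_le_natDegree
      (minpoly.degree_le_of_ne_zero κ (AdjoinSimple.gen κ θ') hne h0)
    rw [minpoly_gen, hdim'] at h3
    have h4 : (D₀.map r).natDegree ≤ D₀.natDegree := natDegree_map_le
    omega

end place

end Pool.Agent.K3h48.FG
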