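import Pool.Agent.K3h48.FG.Gen
import Pool.Agent.K3h48.FG.Place

/-!
# Multinorm obstruction at places: final statements
-/

set_option autoImplicit false
set_option linter.unusedSectionVars false

namespace Pool.Agent.K3h48.FG

open Polynomial IntermediateField Pool.Agent.W620.SC
open Pool.Agent.K3h48.MN (ind kn kn_mul ssum ssum_mul ssum_pow Gn kap kap_apply exists_exp' pq_ne Good GenBy cs wt
  root_orbit move_iff roots_eq fix_all exists_moved IsFactor irr_ext mapS mapS_card mapS_prod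
  exists_prim exists_g minpoly_transfer Obs)

universe u v w z

section place

variable {ℓ p q : ℕ} [hℓ : Fact ℓ.Prime] [hp : Fact p.Prime] [hq : Fact q.Prime]
  {χ : (ZMod p)ˣ →* Multiplicative (ZMod ℓ)} {ψ : (ZMod q)ˣ →* Multiplicative (ZMod ℓ)}
variable {A : Type*} [Field A] [CharZero A] [IsAlgClosed A] {ζ : A}
  {K : Type*} [Field K] [CharZero K] [Algebra K A] [Algebra.IsAlgebraic K A]

lemma exists_move' (hζ : IsPrimitiveRoot ζ (p * q))
    {g : Option (ZMod ℓ) → ℚ[X]} (hg : ∀ i, Gn χ ψ (cs i).1 (cs i).2 ζ (g i)) (a : K)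
    (hnot : ¬ ∃ (c : ∀ i, K⟮(aeval ζ (g i) : A)⟯) (ρ : K),
      a = ρ ^ ℓ * ∏ i, Algebra.norm K (c i)) (i : Option (ZMod ℓ)) :
    ∃ σ : A ≃ₐ[K] A, kap χ ψ (cs i).1 (cs i).2 hζ σ ≠ 1 := by
  classical
  by_contra hcon
  push Not at hcon
  have hnorm : Normal K A := normal_iff.2 fun x =>
    ⟨Algebra.IsIntegral.isIntegral x, IsAlgClosed.splits _⟩
  have hgal : IsGalois K A := ⟨⟩
  have h1 : (aeval ζ (g i) : A) ∈ (⊥ : IntermediateField K A) :=
    Pool.Agent.W620.SC.mem_of_fixed _ fun σ _ => ((hg i).fix_iff hζ σ).2 (hcon σ)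
  have h2 : K⟮(aeval ζ (g i) : A)⟯ = ⊥ := by
    rw [IntermediateField.adjoin_simple_eq_bot_iff]
    exact h1
  have h3 : Module.finrank K K⟮(aeval ζ (g i) : A)⟯ = 1 := by
    rw [h2]
    exact IntermediateField.finrank_bot
  apply hnot
  refine ⟨fun j => if j = i then algebraMap K _ a else 1, 1, ?_⟩
  rw [one_pow, one_mul, Finset.prod_eq_single i]
  · beta_reduce
    rw [if_pos rfl, Algebra.norm_algebraMap, h3, pow_one]
  · intro j _ hj
    beta_reduce
    rw [if_neg hj, map_one]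
  · intro h
    exact absurd (Finset.mem_univ i) h

/-- the elements are integral over `ℚ` -/
lemma int_val {N : ℕ} (hN : 0 < N) (hζ : IsPrimitiveRoot ζ N) (g : ℚ[X]) :
    IsIntegral ℚ (aeval ζ g : A) :=
  IsIntegral.of_mem_of_fg (Algebra.adjoin ℚ {ζ}) ((hζ.isIntegral hN).tower_top).fg_adjoin_singleton
    _ (aeval_mem_adjoin_singleton ℚ ζ)

lemma minpoly_map' (hζ : IsPrimitiveRoot ζ (p * q)) {s t : ZMod ℓ}
    {g : ℚ[X]} (hg : Gn χ ψ s t ζ g) (hmove : ∃ σ : A ≃ₐ[K] A, kap χ ψ s t hζ σ ≠ 1)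
    (hdeg : (minpoly ℚ (aeval ζ g : A)).natDegree = ℓ) :
    (minpoly ℚ (aeval ζ g : A)).map (algebraMap ℚ K) = minpoly K (aeval ζ g : A) := by
  obtain ⟨σ, hσ⟩ := hmove
  have h1 : (minpoly K (aeval ζ g : A)).natDegree = ℓ := roots_eq (hg.fix_iff hζ) hσ
  have hint : IsIntegral ℚ (aeval ζ g : A) := int_val (Nat.pos_of_ne_zero pq_ne) hζ g
  have hint' : IsIntegral K (aeval ζ g : A) := Algebra.IsIntegral.isIntegral _
  refine Polynomial.eq_of_monic_of_dvd_of_natDegree_le (minpoly.monic hint')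
    ((minpoly.monic hint).map _) (minpoly.dvd_map_of_isScalarTower ℚ K _) ?_
  rw [natDegree_map, h1, hdeg]

/-- the obstruction at the place -/
theorem place_main (hG : Good χ ψ) (hζ : IsPrimitiveRoot ζ (p * q)) {e : Option (ZMod ℓ) → ℚ[X]}
    (he : ∀ i, Gn χ ψ (cs i).1 (cs i).2 ζ (e i)) {V : ValuationSubring K} {κ : Type*} [Field κ]
    [NumberField κ] {r : V →+* κ} (hr : IsPlace V r) {b : V} (hb : Obs χ ψ (r b)) :
    (∀ i, (minpoly ℚ (aeval ζ (e i) : A)).natDegree = ℓ) ∧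
    ¬ ∃ (c : ∀ i, K⟮(aeval ζ (e i) : A)⟯) (ρ : K), (b : K) = ρ ^ ℓ * ∏ i, Algebra.norm K (c i) := by
  classical
  let B := AlgebraicClosure κ
  have halg : Algebra.IsAlgebraic ℚ B := Algebra.IsAlgebraic.trans ℚ κ B
  have hpos : 0 < p * q := Nat.pos_of_ne_zero pq_ne
  obtain ⟨ζ', hζ'⟩ := exists_prim B hpos
  have he' : ∀ i, Gn χ ψ (cs i).1 (cs i).2 ζ' (e i) := fun i => (he i).transfer hζ hζ'
  have hb' := hb
  obtain ⟨m, hm, ham⟩ := hb'
  have hnot' := Pool.Agent.K3h48.MN.not_norms hG hζ' he' hm (r b) ham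
  have hmove' := Pool.Agent.K3h48.MN.exists_move (k := κ) hζ' he' (r b) hnot'
  have hκ := fun i => Pool.Agent.K3h48.MN.minpoly_map hζ' (he' i) (hmove' i)
  have hPP : ∀ i, minpoly ℚ (aeval ζ (e i) : A) = minpoly ℚ (aeval ζ' (e i) : B) := fun i =>
    minpoly_transfer hpos hζ hζ' (e i)
  have hdeg : ∀ i, (minpoly ℚ (aeval ζ (e i) : A)).natDegree = ℓ := fun i => by
    rw [hPP i]
    exact (hκ i).2
  -- no field of the family is contained in `K`
  have hmove : ∀ i, ∃ σ : A ≃ₐ[K] A, kap χ ψ (cs i).1 (cs i).2 hζ σ ≠ 1 := by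
    intro i
    by_contra hcon
    push Not at hcon
    have hnorm : Normal K A := normal_iff.2 fun x =>
      ⟨Algebra.IsIntegral.isIntegral x, IsAlgClosed.splits _⟩
    have hgal : IsGalois K A := ⟨⟩
    have h1 : (aeval ζ (e i) : A) ∈ (⊥ : IntermediateField K A) :=
      Pool.Agent.W620.SC.mem_of_fixed _ fun σ _ => ((he i).fix_iff hζ σ).2 (hcon σ)
    obtain ⟨t, ht⟩ := IntermediateField.mem_bot.1 h1
    set P := minpoly ℚ (aeval ζ' (e i) : B) with hP
    have hPm : P.Monic := minpoly.monic (int_val hpos hζ' _)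
    have hPt : eval₂ (algebraMap ℚ K) t P = 0 := by
      apply (algebraMap K A).injective
      rw [map_zero, hom_eval₂]
      change eval₂ ((algebraMap K A).comp (algebraMap ℚ K)) (algebraMap K A t) P = 0
      rw [ht, hP, ← hPP i]
      have h2 : (algebraMap K A).comp (algebraMap ℚ K) = algebraMap ℚ A := RingHom.ext_rat _ _
      rw [h2]
      exact minpoly.aeval ℚ _
    have hrat : (algebraMap V K).comp (ratV hr) = algebraMap ℚ K := RingHom.ext_rat _ _
    have htint : IsIntegral V t := by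
      refine ⟨P.map (ratV hr), hPm.map _, ?_⟩
      rw [eval₂_map, hrat]
      exact hPt
    obtain ⟨y, hy⟩ := (IsIntegrallyClosed.isIntegral_iff).1 htint
    have h3 : eval₂ (ratV hr) y P = 0 := by
      have hinj : Function.Injective (algebraMap V K) := Subtype.val_injective
      apply hinj
      rw [map_zero, hom_eval₂, hrat, hy]
      exact hPt
    have h4 : (minpoly κ (aeval ζ' (e i) : B)).IsRoot (r y) := by
      rw [← (hκ i).1, IsRoot, eval_map]
      have h5 : r.comp (ratV hr) = algebraMap ℚ κ := RingHom.ext_rat _ _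
      rw [← h5, ← hom_eval₂, h3, map_zero]
    have h5 := degree_eq_one_of_irreducible_of_root
      (minpoly.irreducible (Algebra.IsIntegral.isIntegral _)) h4
    have h6 : (minpoly κ (aeval ζ' (e i) : B)).natDegree = ℓ := by
      rw [← (hκ i).1, natDegree_map]
      exact (hκ i).2
    rw [natDegree_eq_of_degree_eq_some h5] at h6
    exact hℓ.out.one_lt.ne h6
  refine ⟨hdeg, ?_⟩
  have hpoly := fun i => minpoly_map' hζ (he i) (hmove i) (hdeg i)
  rintro ⟨c, ρ, h⟩
  have hrb : r b ≠ 0 := hb.ne_zero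
  have hb0 : (b : K) ≠ 0 := by
    intro h0
    have h1 : b = 0 := Subtype.ext h0
    rw [h1, map_zero] at hrb
    exact hrb rfl
  have hc : ∀ i, c i ≠ 0 := by
    intro i hi
    apply hb0
    have hfd : FiniteDimensional K K⟮(aeval ζ (e i) : A)⟯ :=
      adjoin.finiteDimensional (Algebra.IsIntegral.isIntegral _)
    rw [h, Finset.prod_eq_zero (Finset.mem_univ i) (by rw [hi, Algebra.norm_zero]), mul_zero]
  have key : ∀ i, ∃ (π : K) (u : V) (c' : κ⟮(aeval ζ' (e i) : B)⟯), π ≠ 0 ∧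
      Algebra.norm K (c i) = π ^ ℓ * u ∧ r u = Algebra.norm κ c' ∧ r u ≠ 0 := by
    intro i
    have h1 := place_norm hr (Pool.Agent.K3h48.BM.mat (aeval ζ' (e i) : B))
      (θ := (aeval ζ (e i) : A)) (Algebra.IsIntegral.isIntegral _)
      (by rw [Pool.Agent.K3h48.BM.mat_charpoly, ← hPP i, hpoly i])
      (θ' := (aeval ζ' (e i) : B)) (Algebra.IsIntegral.isIntegral _)
      (by rw [Pool.Agent.K3h48.BM.mat_charpoly, (hκ i).1]) (c i) (hc i)
    have h2 := Pool.Agent.K3h48.BM.mat_card (aeval ζ' (e i) : B)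
    rw [Fintype.card_fin, (hκ i).2] at h2
    rw [h2] at h1
    exact h1
  choose π u c' hπ hN hrc hr0 using key
  have hu0 : ∀ i, (u i : K) ≠ 0 := by
    intro i hi
    apply hr0 i
    have h1 : u i = 0 := Subtype.ext hi
    rw [h1, map_zero]
  have hbK : (b : K) = (ρ * ∏ i, π i) ^ ℓ * ∏ i, (u i : K) := by
    rw [h, Finset.prod_congr rfl fun i _ => hN i, Finset.prod_mul_distrib, mul_pow,
      Finset.prod_pow]
    ring
  have hU0 : ∏ i, (u i : K) ≠ 0 := Finset.prod_ne_zero_iff.2 fun i _ => hu0 i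
  have ht : ρ * ∏ i, π i ∈ V := by
    apply mem_of_pow hℓ.out.ne_zero
    have h1 : (ρ * ∏ i, π i) ^ ℓ = (b : K) * (∏ i, (u i : K))⁻¹ := by
      rw [hbK, mul_assoc, mul_inv_cancel₀ hU0, mul_one]
    rw [h1, ← Finset.prod_inv_distrib]
    exact mul_mem b.2 (prod_mem fun i _ => hr (u i) (hr0 i))
  apply hnot'
  refine ⟨c', r ⟨_, ht⟩, ?_⟩
  have hbV : b = (⟨_, ht⟩ : V) ^ ℓ * ∏ i, u i := by
    apply Subtype.ext
    push_cast
    exact hbK
  conv_lhs => rw [hbV]
  rw [map_mul, map_pow, map_prod]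
  congr 1
  exact Finset.prod_congr rfl fun i _ => hrc i

end place

end Pool.Agent.K3h48.FG
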