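import Pool.Agent.K3h48.MN.Ext

/-!
# Multinorm obstruction over arbitrary fields of characteristic zero
-/

set_option autoImplicit false
set_option linter.unusedSectionVars false

namespace Pool.Agent.K3h48.FG

open Polynomial IntermediateField Pool.Agent.W620.SC
open Pool.Agent.K3h48.MN (ind kn kn_mul ssum ssum_mul ssum_pow Gn kap kap_apply exists_exp' pq_ne Good GenBy cs wt
  root_orbit move_iff roots_eq fix_all exists_moved IsFactor irr_ext mapS mapS_card mapS_prod
  exists_prim exists_g minpoly_transfer)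

universe u v w

section nf

variable {ℓ p q : ℕ} [hℓ : Fact ℓ.Prime] [hp : Fact p.Prime] [hq : Fact q.Prime]
  {χ : (ZMod p)ˣ →* Multiplicative (ZMod ℓ)} {ψ : (ZMod q)ˣ →* Multiplicative (ZMod ℓ)}
variable {A : Type*} [Field A] [CharZero A] [IsAlgClosed A] {ζ : A}
  {k : Type*} [Field k] [CharZero k] [Algebra k A] [Algebra.IsAlgebraic k A]

lemma kap_ne_iff (hζ : IsPrimitiveRoot ζ (p * q)) {s t : ZMod ℓ} (σ : A ≃ₐ[k] A) :
    kap χ ψ s t hζ σ = 1 ↔ (kap χ ψ s t hζ σ).toAdd = 0 := Iff.rfl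

/-- an automorphism which moves one field and not the other -/
lemma exists_move_one (hζ : IsPrimitiveRoot ζ (p * q))
    (hmove : ∀ i : Option (ZMod ℓ), ∃ σ : A ≃ₐ[k] A, kap χ ψ (cs i).1 (cs i).2 hζ σ ≠ 1)
    {i i' : Option (ZMod ℓ)} (hii : i ≠ i') :
    ∃ σ : A ≃ₐ[k] A, kap χ ψ (cs i).1 (cs i).2 hζ σ ≠ 1 ∧
      kap χ ψ (cs i').1 (cs i').2 hζ σ = 1 := by
  -- the coordinates
  set X : (A ≃ₐ[k] A) → ZMod ℓ := fun σ => (kap χ ψ 1 0 hζ σ).toAdd with hX
  set Y : (A ≃ₐ[k] A) → ZMod ℓ := fun σ => (kap χ ψ 0 1 hζ σ).toAdd with hY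
  have hkap : ∀ (j : Option (ZMod ℓ)) (σ : A ≃ₐ[k] A),
      kap χ ψ (cs j).1 (cs j).2 hζ σ = 1 ↔ (cs j).1 * X σ + (cs j).2 * Y σ = 0 := by
    intro j σ
    obtain ⟨n, hn, hσ⟩ := exists_exp' hζ σ
    rw [hX, hY]
    simp only
    rw [kap_apply hζ hσ, kap_apply hζ hσ, kap_apply hζ hσ]
    simp only [toAdd_ofAdd, kn, one_mul, zero_mul, add_zero, zero_add]
    exact Iff.rfl
  have hXY : ∀ (σ τ : A ≃ₐ[k] A) (a b : ℕ), X (σ ^ a * τ ^ b) = a * X σ + b * X τ ∧
      Y (σ ^ a * τ ^ b) = a * Y σ + b * Y τ := by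
    intro σ τ a b
    simp only [hX, hY, map_mul, map_pow, toAdd_mul, toAdd_pow, nsmul_eq_mul, and_self]
  -- an automorphism moving the second field
  obtain ⟨u, hu⟩ := hmove i'
  rw [Ne, hkap] at hu
  -- the line of `u`
  obtain ⟨j, hj⟩ : ∃ j : Option (ZMod ℓ), (cs j).1 * X u + (cs j).2 * Y u = 0 := by
    by_cases h : X u = 0
    · exact ⟨none, by simp [cs, h]⟩
    · refine ⟨some (-(Y u / X u)), ?_⟩
      simp only [cs]
      field_simp
      ring
  obtain ⟨w, hw⟩ := hmove j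
  rw [Ne, hkap] at hw
  -- the combination
  set α : ZMod ℓ := (cs i').1 * X w + (cs i').2 * Y w with hα
  set β : ZMod ℓ := (cs i').1 * X u + (cs i').2 * Y u with hβ
  obtain ⟨h1, h2⟩ := hXY u w α.val (-β).val
  rw [ZMod.natCast_zmod_val, ZMod.natCast_zmod_val] at h1 h2
  refine ⟨u ^ α.val * w ^ (-β).val, ?_, ?_⟩
  · rw [Ne, hkap, h1, h2]
    intro h3
    have hi' : (cs i').1 * (α * X u + -β * X w) + (cs i').2 * (α * Y u + -β * Y w) = 0 := by
      rw [hα, hβ]; ring
    -- both coordinates vanish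
    have hzero : α * X u + -β * X w = 0 ∧ α * Y u + -β * Y w = 0 := by
      match i, i' with
      | none, none => exact absurd rfl hii
      | none, some b =>
        simp only [cs] at h3 hi'
        have e1 : α * X u + -β * X w = 0 := by linear_combination h3
        refine ⟨e1, by linear_combination hi' - b * e1⟩
      | some a, none =>
        simp only [cs] at h3 hi'
        have e1 : α * X u + -β * X w = 0 := by linear_combination hi'
        refine ⟨e1, by linear_combination h3 - a * e1⟩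
      | some a, some b =>
        simp only [cs] at h3 hi'
        have hab : a - b ≠ 0 := fun h => hii (by rw [sub_eq_zero.1 h])
        have e1 : α * X u + -β * X w = 0 := by
          apply mul_left_cancel₀ hab
          linear_combination h3 - hi'
        refine ⟨e1, by linear_combination h3 - a * e1⟩
    obtain ⟨e1, e2⟩ := hzero
    have e3 : β * ((cs j).1 * X w + (cs j).2 * Y w) = 0 := by
      linear_combination α * hj - (cs j).1 * e1 - (cs j).2 * e2
    rcases mul_eq_zero.1 e3 with e4 | e4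
    · exact hu e4
    · exact hw e4
  · rw [hkap, h1, h2, hα, hβ]
    ring

lemma fix_conj {g : ℚ[X]} {s t : ZMod ℓ} (hζ : IsPrimitiveRoot ζ (p * q))
    (hg : Gn χ ψ s t ζ g) {ρ : A} (h : aeval ρ (minpoly k (aeval ζ g : A)) = 0) (σ : A ≃ₐ[k] A) :
    σ ρ = ρ ↔ kap χ ψ s t hζ σ = 1 := by
  obtain ⟨τ, rfl⟩ := root_orbit (k := k) h
  exact move_iff (hg.fix_iff hζ) σ τ

end nf

/-- the monic irreducible polynomial `g` has the root `h(θ)` -/
structure Adm {k A : Type*} [Field k] [Field A] [Algebra k A] (θ : A) (g h : k[X]) : Prop where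
  monic : g.Monic
  irr : Irreducible g
  deg : g.natDegree ≠ 1
  dvd : minpoly k θ ∣ g.comp h

section fam

variable {ℓ p q : ℕ} [hℓ : Fact ℓ.Prime] [hp : Fact p.Prime] [hq : Fact q.Prime]
  {χ : (ZMod p)ˣ →* Multiplicative (ZMod ℓ)} {ψ : (ZMod q)ˣ →* Multiplicative (ZMod ℓ)}
variable {A : Type*} [Field A] [CharZero A] [IsAlgClosed A] {ζ : A}
  {k : Type*} [Field k] [CharZero k] [Algebra k A] [Algebra.IsAlgebraic k A]

lemma Adm.root {θ : A} {g h : k[X]} (H : Adm θ g h) {ρ : A} (hρ : aeval ρ (minpoly k θ) = 0) :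
    aeval (aeval ρ h) g = 0 := by
  obtain ⟨d, hd⟩ := H.dvd
  rw [← aeval_comp, hd, map_mul, hρ, zero_mul]

lemma Adm.minpoly_eq {θ : A} {g h : k[X]} (H : Adm θ g h) {ρ : A}
    (hρ : aeval ρ (minpoly k θ) = 0) : g = minpoly k (aeval ρ h) :=
  minpoly.eq_of_irreducible_of_monic H.irr (H.root hρ) H.monic

lemma aut_aeval (σ : A ≃ₐ[k] A) (ρ : A) (h : k[X]) : σ (aeval ρ h) = aeval (σ ρ) h :=
  (aeval_algHom_apply σ ρ h).symm

lemma val_fix (hζ : IsPrimitiveRoot ζ (p * q)) {s t : ZMod ℓ} {e : ℚ[X]}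
    (he : Gn χ ψ s t ζ e) {ρ : A} (hρ : aeval ρ (minpoly k (aeval ζ e : A)) = 0) (h : k[X])
    (σ : A ≃ₐ[k] A) (hσ : kap χ ψ s t hζ σ = 1) : σ (aeval ρ h) = aeval ρ h := by
  rw [aut_aeval, (fix_conj hζ he hρ σ).2 hσ]

/-- the roots are different -/
theorem distinct' (hζ : IsPrimitiveRoot ζ (p * q)) {e : Option (ZMod ℓ) → ℚ[X]}
    (he : ∀ i, Gn χ ψ (cs i).1 (cs i).2 ζ (e i))
    (hmove : ∀ i : Option (ZMod ℓ), ∃ σ : A ≃ₐ[k] A, kap χ ψ (cs i).1 (cs i).2 hζ σ ≠ 1)
    {i i' : Option (ZMod ℓ)} {g g' h h' : k[X]} (H : Adm (aeval ζ (e i) : A) g h)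
    (H' : Adm (aeval ζ (e i') : A) g' h') {ρ ρ' : A}
    (hρ : aeval ρ (minpoly k (aeval ζ (e i) : A)) = 0)
    (hρ' : aeval ρ' (minpoly k (aeval ζ (e i') : A)) = 0) (heq : aeval ρ h = aeval ρ' h') :
    i = i' ∧ g = g' ∧ (h = h' → ρ = ρ') := by
  have hg : g = g' := by rw [H.minpoly_eq hρ, heq, ← H'.minpoly_eq hρ']
  obtain ⟨σ₀, hσ₀⟩ := exists_moved H.irr H.deg (H.root hρ)
  have hii : i = i' := by
    by_contra hne
    obtain ⟨σ, h1, h2⟩ := exists_move_one hζ hmove hne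
    apply hσ₀
    refine fix_all (fun τ hτ => val_fix hζ (he i) hρ h τ hτ) h1 ?_ σ₀
    rw [heq]
    exact val_fix hζ (he i') hρ' h' σ h2
  refine ⟨hii, hg, ?_⟩
  rintro rfl
  subst hii
  obtain ⟨τ₁, rfl⟩ := root_orbit (k := k) hρ
  obtain ⟨τ₂, rfl⟩ := root_orbit (k := k) hρ'
  by_contra hne
  have h2 : τ₁⁻¹ (τ₁ (aeval ζ (e i) : A)) = aeval ζ (e i) := by
    rw [← AlgEquiv.mul_apply, inv_mul_cancel, AlgEquiv.one_apply]
  have h1 : kap χ ψ (cs i).1 (cs i).2 hζ (τ₂ * τ₁⁻¹) ≠ 1 := by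
    intro h4
    have h3 := (fix_conj hζ (he i) hρ _).2 h4
    rw [AlgEquiv.mul_apply, h2] at h3
    exact hne h3.symm
  apply hσ₀
  refine fix_all (fun τ hτ => val_fix hζ (he i) hρ h τ hτ) h1 ?_ σ₀
  rw [aut_aeval, AlgEquiv.mul_apply, h2]
  exact heq.symm

/-- the polynomial as a product over the conjugates -/
theorem prod_roots (hζ : IsPrimitiveRoot ζ (p * q)) {e : Option (ZMod ℓ) → ℚ[X]}
    (he : ∀ i, Gn χ ψ (cs i).1 (cs i).2 ζ (e i))
    (hmove : ∀ i : Option (ZMod ℓ), ∃ σ : A ≃ₐ[k] A, kap χ ψ (cs i).1 (cs i).2 hζ σ ≠ 1)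
    {i : Option (ZMod ℓ)} {g h : k[X]} (H : Adm (aeval ζ (e i) : A) g h) {R : Finset A}
    (hR : ∀ ρ, ρ ∈ R ↔ aeval ρ (minpoly k (aeval ζ (e i) : A)) = 0) :
    g.map (algebraMap k A) = ∏ ρ ∈ R, (X - C (aeval ρ h)) := by
  classical
  have hθ : aeval (aeval ζ (e i) : A) (minpoly k (aeval ζ (e i) : A)) = 0 := minpoly.aeval k _
  have hspl : (g.map (algebraMap k A)).Splits := IsAlgClosed.splits _
  have h1 := hspl.eq_prod_roots_of_monic (H.monic.map _)
  have hnd : (g.map (algebraMap k A)).roots.Nodup := nodup_roots H.irr.separable.map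
  have hinj : Set.InjOn (fun ρ : A => aeval ρ h) R := by
    intro ρ hρ ρ' hρ' heq
    exact (distinct' hζ he hmove H H ((hR ρ).1 hρ) ((hR ρ').1 hρ') heq).2.2 rfl
  have himg : (g.map (algebraMap k A)).roots.toFinset = R.image (fun ρ : A => aeval ρ h) := by
    ext r
    rw [Multiset.mem_toFinset, Finset.mem_image, mem_roots (H.monic.map _).ne_zero, IsRoot,
      eval_map_algebraMap]
    constructor
    · intro hr
      have h2 := H.minpoly_eq hθ
      rw [h2] at hr
      obtain ⟨τ, rfl⟩ := root_orbit (k := k) hr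
      refine ⟨τ (aeval ζ (e i) : A), (hR _).2 ?_, (aut_aeval τ _ h).symm⟩
      rw [← aut_aeval, hθ, map_zero]
    · rintro ⟨ρ, hρ, rfl⟩
      exact H.root ((hR ρ).1 hρ)
  rw [h1]
  have h2 : ((g.map (algebraMap k A)).roots.map (fun a => X - C a)).prod =
      ∏ r ∈ (g.map (algebraMap k A)).roots.toFinset, (X - C r) := by
    rw [Finset.prod, Multiset.toFinset_val, Multiset.dedup_eq_self.2 hnd]
  rw [h2, himg, Finset.prod_image hinj]

end fam

section curve

variable {ℓ p q : ℕ} [hℓ : Fact ℓ.Prime] [hp : Fact p.Prime] [hq : Fact q.Prime]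
  {χ : (ZMod p)ˣ →* Multiplicative (ZMod ℓ)} {ψ : (ZMod q)ˣ →* Multiplicative (ZMod ℓ)}
variable {k : Type u} {F : Type v} {Ω : Type w} [Field k] [CharZero k] [Field F] [Field Ω]
  [Algebra k F] [Algebra F Ω] [Algebra k Ω] [IsScalarTower k F Ω] [IsAlgClosed Ω]
  [Algebra.IsAlgebraic F Ω]

theorem gen_no_section [CharZero (algebraicClosure k Ω)] [IsAlgClosed (algebraicClosure k Ω)]
    {ζ : algebraicClosure k Ω} (hζ : IsPrimitiveRoot ζ (p * q))
    {e : Option (ZMod ℓ) → ℚ[X]} (he : ∀ i, Gn χ ψ (cs i).1 (cs i).2 ζ (e i))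
    (hmove : ∀ i : Option (ZMod ℓ), ∃ σ : (algebraicClosure k Ω) ≃ₐ[k] (algebraicClosure k Ω),
      kap χ ψ (cs i).1 (cs i).2 hζ σ ≠ 1)
    (G : Option (ZMod ℓ) → Finset k[X])
    (hG : ∀ i, ∀ g ∈ G i, ∃ h, Adm (aeval ζ (e i) : algebraicClosure k Ω) g h)
    (a : k) (ha : a ≠ 0) (x y : F) (hy : y ≠ 0)
    (hxy : algebraMap k F a * y ^ ℓ = ∏ i, ∏ g ∈ G i, aeval x g)
    (U : Set (ValuationSubring F)) (hU : ∀ O ∈ U, ∀ c : k, algebraMap k F c ∈ O)
    (hinf : (∀ i, ℓ ∣ (G i).card) ∨ ∀ O ∈ U, x ∈ O)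
    (hnot : ¬ ∃ (c : ∀ i, k⟮(aeval ζ (e i) : algebraicClosure k Ω)⟯) (ρ : k),
      a = ρ ^ ℓ * ∏ i, Algebra.norm k (c i)) :
    IsEmpty (GSection k F Ω U) := by
  classical
  choose! hh hH using hG
  set θ : Option (ZMod ℓ) → (algebraicClosure k Ω) := fun i => aeval ζ (e i) with hθ
  have hint : ∀ i, IsIntegral k (θ i) := fun i => Algebra.IsIntegral.isIntegral _
  set vl : Option (ZMod ℓ) → k[X] → (algebraicClosure k Ω) → (algebraicClosure k Ω) := fun i g ρ => aeval ρ (hh i g) with hvl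
  set Z : Option (ZMod ℓ) → F[X] := fun i =>
    ∏ g ∈ G i, (C x - (hh i g).map (algebraMap k F)) with hZ
  have hZval : ∀ i (ρ : (algebraicClosure k Ω)), aeval (ρ : Ω) (Z i) =
      ∏ g ∈ G i, (algebraMap F Ω x - (vl i g ρ : Ω)) := by
    intro i ρ
    rw [hZ]
    simp only [map_prod, map_sub, aeval_C]
    refine Finset.prod_congr rfl fun g _ => ?_
    congr 1
    rw [aeval_map_algebraMap]
    exact aeval_algebraMap_apply Ω ρ (hh i g)
  set R : Option (ZMod ℓ) → Finset (algebraicClosure k Ω) := fun i => ((minpoly k (θ i)).aroots (algebraicClosure k Ω)).toFinset with hR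
  have hnd : ∀ i, ((minpoly k (θ i)).aroots (algebraicClosure k Ω)).Nodup := fun i =>
    nodup_roots ((minpoly.irreducible (hint i)).separable.map)
  have hRmem : ∀ i ρ, ρ ∈ R i ↔ aeval ρ (minpoly k (θ i)) = 0 := by
    intro i ρ
    rw [hR]
    simp only [Multiset.mem_toFinset]
    rw [mem_aroots]
    exact ⟨fun h => h.2, fun h => ⟨minpoly.ne_zero (hint i), h⟩⟩
  have hRprod : ∀ i (f : (algebraicClosure k Ω) → Ω), (((minpoly k (θ i)).aroots (algebraicClosure k Ω)).map f).prod = ∏ ρ ∈ R i, f ρ := by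
    intro i f
    rw [hR, Finset.prod]
    simp only [Multiset.toFinset_val]
    rw [Multiset.dedup_eq_self.2 (hnd i)]
  have hsplit : ∀ i, ∀ g ∈ G i, algebraMap F Ω (aeval x g) =
      ∏ ρ ∈ R i, (algebraMap F Ω x - (vl i g ρ : Ω)) := by
    intro i g hg
    have h1 := prod_roots hζ he hmove (hH i g hg) (hRmem i)
    have h2 : algebraMap F Ω (aeval x g) =
        eval₂ (algebraMap (algebraicClosure k Ω) Ω) (algebraMap F Ω x) (g.map (algebraMap k (algebraicClosure k Ω))) := by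
      rw [eval₂_map, ← aeval_algebraMap_apply, aeval_def]
      rfl
    rw [h2, h1, ← coe_eval₂RingHom, map_prod]
    refine Finset.prod_congr rfl fun ρ _ => ?_
    simp only [coe_eval₂RingHom, eval₂_sub, eval₂_X, eval₂_C]
    rfl
  have hprod : ∏ i, ∏ ρ ∈ R i, aeval (ρ : Ω) (Z i) =
      algebraMap k Ω a * algebraMap F Ω y ^ ℓ := by
    rw [IsScalarTower.algebraMap_apply k F Ω, ← map_pow, ← map_mul, hxy, map_prod]
    refine Finset.prod_congr rfl fun i _ => ?_
    rw [map_prod, Finset.prod_congr rfl (hsplit i), Finset.prod_comm]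
    refine Finset.prod_congr rfl fun ρ _ => ?_
    rw [hZval]
  have hθR : ∀ i, θ i ∈ R i := fun i => (hRmem i _).2 (minpoly.aeval k (θ i))
  refine no_section (k := k) U hU hℓ.out.pos θ Z a ha y hy ?_ ?_ hnot
  · -- unramifiedness
    intro i W hW
    have hWk : ∀ c : k, algebraMap k Ω c ∈ W := by
      intro c
      rw [IsScalarTower.algebraMap_apply k F Ω]
      exact hU _ hW c
    have hconst : ∀ c : Ω, c ∈ algebraicClosure k Ω → c ≠ 0 → IsU W c := fun c hc _ =>
      ⟨const_mem hWk hc, const_mem hWk (inv_mem hc)⟩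
    by_cases hx : algebraMap F Ω x ∈ W
    · by_cases hall : ∀ g ∈ G i, algebraMap F Ω x - (vl i g (θ i) : Ω) ∉ W.nonunits
      · refine ⟨1, one_mem _, one_ne_zero, ?_⟩
        have hu : IsU W (aeval (θ i : Ω) (Z i)) := by
          rw [hZval]
          refine IsU.prod _ _ fun g hg => ?_
          exact isU_of_not_nonunit (sub_mem hx (const_mem hWk (vl i g (θ i)).2)) (hall g hg)
        rw [one_pow, div_one, one_div]
        exact hu
      · push Not at hall
        obtain ⟨g0, hg0, hnu⟩ := hall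
        -- all other factors are units
        have hother : ∀ c : (algebraicClosure k Ω), c ≠ vl i g0 (θ i) → IsU W (algebraMap F Ω x - (c : Ω)) := by
          intro c hne
          have h1 : algebraMap F Ω x - (c : Ω) = ((vl i g0 (θ i) - c : (algebraicClosure k Ω)) : Ω) +
              (algebraMap F Ω x - (vl i g0 (θ i) : Ω)) := by
            push_cast
            ring
          rw [h1]
          have h2 : ((vl i g0 (θ i) - c : (algebraicClosure k Ω)) : Ω) ≠ 0 := by
            intro h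
            exact hne (sub_eq_zero.1 (Subtype.ext h)).symm
          exact isU_add (hconst _ (vl i g0 (θ i) - c : (algebraicClosure k Ω)).2 h2) hnu h2
        have hZu : ∀ i' (ρ : (algebraicClosure k Ω)), ρ ∈ R i' → (i' = i → ρ ≠ θ i) →
            IsU W (aeval (ρ : Ω) (Z i')) := by
          intro i' ρ hρ hne
          rw [hZval]
          refine IsU.prod _ _ fun g hg => hother _ ?_
          intro h
          obtain ⟨h2, h3, h4⟩ := distinct' hζ he hmove (hH i' g hg) (hH i g0 hg0)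
            ((hRmem i' ρ).1 hρ) ((hRmem i _).1 (hθR i)) h
          subst h2
          subst h3
          exact hne rfl (h4 rfl)
        have haU : IsU W (algebraMap k Ω a) := hconst _ ((algebraicClosure k Ω).algebraMap_mem a)
          ((_root_.map_ne_zero _).2 ha)
        have hy0 : algebraMap F Ω y ≠ 0 := (_root_.map_ne_zero _).2 hy
        set Q : Ω := (∏ ρ ∈ (R i).erase (θ i), aeval (ρ : Ω) (Z i)) *
          ∏ i' ∈ Finset.univ.erase i, ∏ ρ ∈ R i', aeval (ρ : Ω) (Z i') with hQ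
        have hQU : IsU W Q := by
          refine IsU.mul (IsU.prod _ _ fun ρ hρ => ?_)
            (IsU.prod _ _ fun i' hi' => IsU.prod _ _ fun ρ hρ => ?_)
          · exact hZu i ρ (Finset.mem_of_mem_erase hρ) fun _ => Finset.ne_of_mem_erase hρ
          · exact hZu i' ρ hρ fun h => absurd h (Finset.ne_of_mem_erase hi')
        have hzQ : aeval (θ i : Ω) (Z i) * Q = algebraMap k Ω a * algebraMap F Ω y ^ ℓ := by
          rw [← hprod, ← Finset.mul_prod_erase _ _ (Finset.mem_univ i), hQ,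
            ← Finset.mul_prod_erase _ _ (hθR i)]
          ring
        have hQ0 : Q ≠ 0 := by
          intro h
          rw [h, mul_zero] at hzQ
          exact mul_ne_zero ((_root_.map_ne_zero _).2 ha) (pow_ne_zero ℓ hy0) hzQ.symm
        refine ⟨algebraMap F Ω y, IntermediateField.algebraMap_mem _ y, hy0, ?_⟩
        have h1 : aeval (θ i : Ω) (Z i) / algebraMap F Ω y ^ ℓ = algebraMap k Ω a * Q⁻¹ := by
          rw [div_eq_iff (pow_ne_zero ℓ hy0), mul_right_comm, ← hzQ]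
          field_simp
        have h2 := haU.mul hQU.inv
        rw [← h1] at h2
        refine ⟨h2.1, ?_⟩
        rw [← inv_div]
        exact h2.2
    · -- at infinity
      have hdvd : ∀ i, ℓ ∣ (G i).card := by
        rcases hinf with h | h
        · exact h
        · exact absurd (h _ hW) hx
      obtain ⟨m, hm⟩ := hdvd i
      have hx0 : algebraMap F Ω x ≠ 0 := by
        intro h
        rw [h] at hx
        exact hx (zero_mem _)
      have hxinv : (algebraMap F Ω x)⁻¹ ∈ W.nonunits :=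
        (W.inv_mem_nonunits_iff).2 (Or.inr hx)
      refine ⟨algebraMap F Ω x ^ m, pow_mem (IntermediateField.algebraMap_mem _ x) m,
        pow_ne_zero m hx0, ?_⟩
      have hU1 : IsU W (∏ g ∈ G i, (1 + -((vl i g (θ i) : Ω) * (algebraMap F Ω x)⁻¹))) := by
        refine IsU.prod _ _ fun g _ => isU_add ⟨one_mem _, by rw [inv_one]; exact one_mem _⟩ ?_
          one_ne_zero
        refine neg_mem ?_
        rw [W.mem_nonunits_iff, map_mul]
        exact lt_of_le_of_lt (mul_le_of_le_one_left' ((W.valuation_le_one_iff _).2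
          (const_mem hWk (vl i g (θ i)).2))) ((W.mem_nonunits_iff).1 hxinv)
      have h1 : aeval (θ i : Ω) (Z i) /
          (algebraMap F Ω x ^ m) ^ ℓ = ∏ g ∈ G i, (1 + -((vl i g (θ i) : Ω) *
          (algebraMap F Ω x)⁻¹)) := by
        rw [hZval, ← pow_mul, mul_comm m ℓ, ← hm, ← Finset.prod_const, ← Finset.prod_div_distrib]
        refine Finset.prod_congr rfl fun g _ => ?_
        field_simp
        ring
      rw [← h1] at hU1
      refine ⟨hU1.1, ?_⟩
      rw [← inv_div]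
      exact hU1.2
  · rw [← hprod]
    exact Finset.prod_congr rfl fun i _ => hRprod i _

end curve

section points

variable {ℓ p q : ℕ} [hℓ : Fact ℓ.Prime] [hp : Fact p.Prime] [hq : Fact q.Prime]
  {χ : (ZMod p)ˣ →* Multiplicative (ZMod ℓ)} {ψ : (ZMod q)ˣ →* Multiplicative (ZMod ℓ)}
variable {A : Type*} [Field A] [CharZero A] [IsAlgClosed A] {ζ : A}
  {k : Type*} [Field k] [CharZero k] [Algebra k A] [Algebra.IsAlgebraic k A]

lemma adm_eval (hζ : IsPrimitiveRoot ζ (p * q)) {e : Option (ZMod ℓ) → ℚ[X]}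
    (he : ∀ i, Gn χ ψ (cs i).1 (cs i).2 ζ (e i))
    (hmove : ∀ i : Option (ZMod ℓ), ∃ σ : A ≃ₐ[k] A, kap χ ψ (cs i).1 (cs i).2 hζ σ ≠ 1)
    {i : Option (ZMod ℓ)} {g h : k[X]} (H : Adm (aeval ζ (e i) : A) g h) (z : k) :
    algebraMap k A (eval z g) = (((minpoly k (aeval ζ (e i) : A)).aroots A).map
      (fun ρ => algebraMap k A z - aeval ρ h)).prod := by
  classical
  have hint : IsIntegral k (aeval ζ (e i) : A) := Algebra.IsIntegral.isIntegral _
  have hnd : ((minpoly k (aeval ζ (e i) : A)).aroots A).Nodup :=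
    nodup_roots ((minpoly.irreducible hint).separable.map)
  have hR : ∀ ρ, ρ ∈ ((minpoly k (aeval ζ (e i) : A)).aroots A).toFinset ↔
      aeval ρ (minpoly k (aeval ζ (e i) : A)) = 0 := by
    intro ρ
    rw [Multiset.mem_toFinset, mem_aroots]
    exact ⟨fun h => h.2, fun h => ⟨minpoly.ne_zero hint, h⟩⟩
  have h1 := prod_roots hζ he hmove H hR
  have h2 : algebraMap k A (eval z g) = eval (algebraMap k A z) (g.map (algebraMap k A)) := by
    rw [eval_map_algebraMap, aeval_algebraMap_apply, coe_aeval_eq_eval]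
  have h3 : (((minpoly k (aeval ζ (e i) : A)).aroots A).map
      (fun ρ => algebraMap k A z - aeval ρ h)).prod =
      ∏ ρ ∈ ((minpoly k (aeval ζ (e i) : A)).aroots A).toFinset,
        (algebraMap k A z - aeval ρ h) := by
    rw [Finset.prod, Multiset.toFinset_val, Multiset.dedup_eq_self.2 hnd]
  rw [h2, h1, h3, eval_prod]
  refine Finset.prod_congr rfl fun ρ _ => ?_
  rw [eval_sub, eval_X, eval_C]

/-- there are no affine points -/
theorem gen_no_points (hζ : IsPrimitiveRoot ζ (p * q)) {e : Option (ZMod ℓ) → ℚ[X]}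
    (he : ∀ i, Gn χ ψ (cs i).1 (cs i).2 ζ (e i))
    (hmove : ∀ i : Option (ZMod ℓ), ∃ σ : A ≃ₐ[k] A, kap χ ψ (cs i).1 (cs i).2 hζ σ ≠ 1)
    (G : Option (ZMod ℓ) → Finset k[X])
    (hG : ∀ i, ∀ g ∈ G i, ∃ h, Adm (aeval ζ (e i) : A) g h) (a : k)
    (hnot : ¬ ∃ (c : ∀ i, k⟮(aeval ζ (e i) : A)⟯) (ρ : k),
      a = ρ ^ ℓ * ∏ i, Algebra.norm k (c i)) (x y : k) :
    a * y ^ ℓ ≠ ∏ i, ∏ g ∈ G i, eval x g := by
  classical
  intro h
  choose! hh hH using hG
  have hint : ∀ i, IsIntegral k (aeval ζ (e i) : A) := fun i => Algebra.IsIntegral.isIntegral _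
  have hnorm : ∀ (i : Option (ZMod ℓ)), ∀ g ∈ G i, Algebra.norm k (algebraMap k
      k⟮(aeval ζ (e i) : A)⟯ x - aeval (AdjoinSimple.gen k (aeval ζ (e i) : A)) (hh i g)) =
      eval x g := by
    intro i g hg
    have hfin : FiniteDimensional k k⟮(aeval ζ (e i) : A)⟯ := adjoin.finiteDimensional (hint i)
    apply (algebraMap k A).injective
    rw [Algebra.norm_eq_prod_embeddings, adm_eval hζ he hmove (hH i g hg) x,
      ← prod_embeddings (aeval ζ (e i) : A) (hint i)
        (fun ρ : A => algebraMap k A x - aeval ρ (hh i g))]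
    refine Finset.prod_congr rfl fun φ _ => ?_
    rw [map_sub, φ.commutes, ← aeval_algHom_apply]
  by_cases hy : y = 0
  · rw [hy, zero_pow hℓ.out.ne_zero, mul_zero] at h
    obtain ⟨i, -, hi⟩ := Finset.prod_eq_zero_iff.1 h.symm
    obtain ⟨g, hg, hj⟩ := Finset.prod_eq_zero_iff.1 hi
    exact (hH i g hg).deg (natDegree_eq_of_degree_eq_some
      (degree_eq_one_of_irreducible_of_root (hH i g hg).irr hj))
  · apply hnot
    refine ⟨fun i => ∏ g ∈ G i, (algebraMap k k⟮(aeval ζ (e i) : A)⟯ x -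
      aeval (AdjoinSimple.gen k (aeval ζ (e i) : A)) (hh i g)), y⁻¹, ?_⟩
    have h1 : ∀ i : Option (ZMod ℓ), Algebra.norm k (∏ g ∈ G i, (algebraMap k
      k⟮(aeval ζ (e i) : A)⟯ x - aeval (AdjoinSimple.gen k (aeval ζ (e i) : A)) (hh i g))) =
        ∏ g ∈ G i, eval x g := by
      intro i
      rw [map_prod]
      exact Finset.prod_congr rfl fun g hg => hnorm i g hg
    rw [Finset.prod_congr rfl fun i _ => h1 i, ← h, inv_pow, mul_left_comm,
      inv_mul_cancel₀ (pow_ne_zero ℓ hy), mul_one]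

lemma gen_disj (hζ : IsPrimitiveRoot ζ (p * q)) {e : Option (ZMod ℓ) → ℚ[X]}
    (he : ∀ i, Gn χ ψ (cs i).1 (cs i).2 ζ (e i))
    (hmove : ∀ i : Option (ZMod ℓ), ∃ σ : A ≃ₐ[k] A, kap χ ψ (cs i).1 (cs i).2 hζ σ ≠ 1)
    {i i' : Option (ZMod ℓ)} {g h h' : k[X]} (H : Adm (aeval ζ (e i) : A) g h)
    (H' : Adm (aeval ζ (e i') : A) g h') : i = i' := by
  have h1 := H.root (minpoly.aeval k (aeval ζ (e i) : A))
  have h2 := H'.minpoly_eq (minpoly.aeval k (aeval ζ (e i') : A))
  rw [h2] at h1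
  obtain ⟨τ, hτ⟩ := root_orbit (k := k) h1
  rw [aut_aeval] at hτ
  have h3 : aeval (τ (aeval ζ (e i') : A)) (minpoly k (aeval ζ (e i') : A)) = 0 := by
    rw [← aut_aeval, minpoly.aeval, map_zero]
  exact (distinct' hζ he hmove H H' (minpoly.aeval k _) h3 hτ.symm).1

/-- the right hand side is separable -/
theorem gen_separable (hζ : IsPrimitiveRoot ζ (p * q)) {e : Option (ZMod ℓ) → ℚ[X]}
    (he : ∀ i, Gn χ ψ (cs i).1 (cs i).2 ζ (e i))
    (hmove : ∀ i : Option (ZMod ℓ), ∃ σ : A ≃ₐ[k] A, kap χ ψ (cs i).1 (cs i).2 hζ σ ≠ 1)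
    (G : Option (ZMod ℓ) → Finset k[X])
    (hG : ∀ i, ∀ g ∈ G i, ∃ h, Adm (aeval ζ (e i) : A) g h) :
    (∏ i, ∏ g ∈ G i, g).Separable := by
  classical
  choose! hh hH using hG
  have hcop : ∀ (i i' : Option (ZMod ℓ)) (g g' : k[X]), g ∈ G i → g' ∈ G i' → g ≠ g' →
      IsCoprime g g' := by
    intro i i' g g' hg hg' hne
    refine ((hH i g hg).irr.coprime_iff_not_dvd).2 fun hdvd => hne ?_
    exact eq_of_monic_of_associated (hH i g hg).monic (hH i' g' hg').monic
      ((hH i g hg).irr.associated_of_dvd (hH i' g' hg').irr hdvd)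
  refine separable_prod' ?_ fun i _ => separable_prod' ?_ fun g hg => (hH i g hg).irr.separable
  · intro i _ i' _ hii
    refine IsCoprime.prod_left fun g hg => IsCoprime.prod_right fun g' hg' =>
      hcop i i' g g' hg hg' ?_
    rintro rfl
    exact hii (gen_disj hζ he hmove (hH i g hg) (hH i' g hg'))
  · intro g hg g' hg' hne
    exact hcop i i g g' hg hg' hne

theorem gen_natDegree (hζ : IsPrimitiveRoot ζ (p * q)) {e : Option (ZMod ℓ) → ℚ[X]}
    (he : ∀ i, Gn χ ψ (cs i).1 (cs i).2 ζ (e i))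
    (hmove : ∀ i : Option (ZMod ℓ), ∃ σ : A ≃ₐ[k] A, kap χ ψ (cs i).1 (cs i).2 hζ σ ≠ 1)
    (G : Option (ZMod ℓ) → Finset k[X])
    (hG : ∀ i, ∀ g ∈ G i, ∃ h, Adm (aeval ζ (e i) : A) g h) :
    (∏ i, ∏ g ∈ G i, g).natDegree = ℓ * ∑ i, (G i).card := by
  classical
  choose! hh hH using hG
  have hdeg : ∀ (i : Option (ZMod ℓ)), ∀ g ∈ G i, g.natDegree = ℓ := by
    intro i g hg
    have hint : IsIntegral k (aeval ζ (e i) : A) := Algebra.IsIntegral.isIntegral _
    have hR : ∀ ρ, ρ ∈ ((minpoly k (aeval ζ (e i) : A)).aroots A).toFinset ↔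
        aeval ρ (minpoly k (aeval ζ (e i) : A)) = 0 := by
      intro ρ
      rw [Multiset.mem_toFinset, mem_aroots]
      exact ⟨fun h => h.2, fun h => ⟨minpoly.ne_zero hint, h⟩⟩
    have h1 := congrArg natDegree (prod_roots hζ he hmove (hH i g hg) hR)
    rw [natDegree_map, natDegree_finset_prod_X_sub_C_eq_card] at h1
    rw [h1]
    obtain ⟨σ, hσ⟩ := hmove i
    have h2 : (minpoly k (aeval ζ (e i) : A)).natDegree = ℓ := roots_eq ((he i).fix_iff hζ) hσ
    have hspl : ((minpoly k (aeval ζ (e i) : A)).map (algebraMap k A)).Splits :=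
      IsAlgClosed.splits _
    have h3 := hspl.natDegree_eq_card_roots
    rw [natDegree_map, h2] at h3
    rw [Multiset.toFinset_card_of_nodup
      (nodup_roots ((minpoly.irreducible hint).separable.map))]
    exact h3.symm
  rw [natDegree_prod_of_monic _ _ fun i _ => monic_prod_of_monic _ _ fun g hg =>
    (hH i g hg).monic, Finset.mul_sum]
  refine Finset.sum_congr rfl fun i _ => ?_
  rw [natDegree_prod_of_monic _ _ fun g hg => (hH i g hg).monic,
    Finset.sum_congr rfl fun g hg => hdeg i g hg, Finset.sum_const, smul_eq_mul, mul_comm]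

end points


end Pool.Agent.K3h48.FG
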