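import Pool.Agent.K3h48.FG.Place

/-!
# Places from embeddings into fields of Laurent series
-/

set_option autoImplicit false
set_option linter.unusedSectionVars false

namespace Pool.Agent.K3h48.FG

open Polynomial LaurentSeries PowerSeries

universe u z

variable {K : Type u} [Field K] {κ : Type z} [Field κ] (ι : K →+* LaurentSeries κ)

/-- the elements which are mapped to power series -/
noncomputable def psV : ValuationSubring K :=
  ((Valued.v : Valuation (LaurentSeries κ) _).valuationSubring).comap ι

lemma mem_psV (x : K) : x ∈ psV ι ↔ ∃ F : PowerSeries κ, (F : LaurentSeries κ) = ι x := by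
  rw [psV, ValuationSubring.mem_comap, Valuation.mem_valuationSubring_iff]
  exact LaurentSeries.val_le_one_iff_eq_coe κ (ι x)

lemma coeff_zero_coe (F : PowerSeries κ) :
    HahnSeries.coeff (F : LaurentSeries κ) 0 = PowerSeries.constantCoeff F := by
  have h := LaurentSeries.coeff_coe_powerSeries F 0
  rw [Nat.cast_zero] at h
  rw [h, PowerSeries.coeff_zero_eq_constantCoeff]

/-- the constant coefficient -/
noncomputable def psR : psV ι →+* κ where
  toFun x := HahnSeries.coeff (ι (x : K)) 0
  map_one' := by
    have h : ι ((1 : psV ι) : K) = ((1 : PowerSeries κ) : LaurentSeries κ) := by simp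
    rw [h, coeff_zero_coe, map_one]
  map_mul' x y := by
    obtain ⟨F, hF⟩ := (mem_psV ι _).1 x.2
    obtain ⟨G, hG⟩ := (mem_psV ι _).1 y.2
    have h : ι ((x * y : psV ι) : K) = ((F * G : PowerSeries κ) : LaurentSeries κ) := by
      rw [MulMemClass.coe_mul, map_mul, ← hF, ← hG, PowerSeries.coe_mul]
    rw [h, ← hF, ← hG, coeff_zero_coe, coeff_zero_coe, coeff_zero_coe, map_mul]
  map_zero' := by simp
  map_add' x y := by
    rw [AddMemClass.coe_add, map_add, HahnSeries.coeff_add]

lemma psR_apply (x : psV ι) : psR ι x = HahnSeries.coeff (ι (x : K)) 0 := rfl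

lemma psR_place : IsPlace (psV ι) (psR ι) := by
  intro x hx
  obtain ⟨F, hF⟩ := (mem_psV ι _).1 x.2
  rw [psR_apply, ← hF, coeff_zero_coe] at hx
  rw [mem_psV]
  refine ⟨F⁻¹, ?_⟩
  rw [map_inv₀, ← hF]
  apply eq_inv_of_mul_eq_one_left
  rw [← PowerSeries.coe_mul, PowerSeries.inv_mul_cancel F hx, PowerSeries.coe_one]

end Pool.Agent.K3h48.FG
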